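import Mathlib
import Pool.Agent.H592.TR.Stm
import Pool.Agent.H825.TD.Good

/-!
# TR7: the bad moduli
-/

set_option autoImplicit false

open Finset Filter Topology

namespace Pool.Agent.H592.TR

open Pool.Agent.H592.TD (In rho cc Good)

namespace T7aux

theorem good2_of {m n Y : ℕ} (hm : 1 ≤ m) (hn : 1 ≤ n) (h1 : ∀ d : ℕ, d ^ 2 ∣ m → d ≤ Y)
    (h2 : ∀ d : ℕ, d ^ 2 ∣ n → d ≤ Y) : Good2 (2 ^ (2 * Y + 1) * (Y ^ 2) ^ 3) m n := by
  have hl : 1 ≤ Nat.lcm m n := Nat.lcm_pos hm hn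
  have hLR := Nat.factorizationLCMLeft_mul_factorizationLCMRight (a := m) (b := n) (by omega)
    (by omega)
  have hc := Nat.coprime_factorizationLCMLeft_factorizationLCMRight (a := m) (b := n)
  have hLm := Nat.factorizationLCMLeft_dvd_left m n
  have hRn := Nat.factorizationLCMRight_dvd_right m n
  generalize Nat.factorizationLCMLeft m n = L at *
  generalize Nat.factorizationLCMRight m n = R at *
  have hgood : Good (2 : ℤ) ((2 : ℤ).natAbs ^ (2 * Y + 1) * (Y ^ 2) ^ 3) (Nat.lcm m n) := by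
    apply Pool.Agent.H825.TD.good_of (by norm_num) hl
    · intro d hd
      rw [← hLR] at hd
      have hdLR : d ∣ L * R := (dvd_pow_self d two_ne_zero).trans hd
      have h3 : d = Nat.gcd d L * Nat.gcd d R := by
        rw [← Nat.Coprime.gcd_mul d hc, Nat.gcd_eq_left hdLR]
      have h4 : (Nat.gcd d L) ^ 2 ∣ L := by
        have h5 : (Nat.gcd d L) ^ 2 ∣ L * R :=
          (pow_dvd_pow_of_dvd (Nat.gcd_dvd_left d L) 2).trans hd
        have h6 : Nat.Coprime ((Nat.gcd d L) ^ 2) R :=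
          Nat.Coprime.pow_left 2 (Nat.Coprime.coprime_dvd_left (Nat.gcd_dvd_right d L) hc)
        exact h6.dvd_of_dvd_mul_right h5
      have h4' : (Nat.gcd d R) ^ 2 ∣ R := by
        have h5 : (Nat.gcd d R) ^ 2 ∣ L * R :=
          (pow_dvd_pow_of_dvd (Nat.gcd_dvd_left d R) 2).trans hd
        have h6 : Nat.Coprime ((Nat.gcd d R) ^ 2) L :=
          Nat.Coprime.pow_left 2 (Nat.Coprime.coprime_dvd_left (Nat.gcd_dvd_right d R) hc.symm)
        exact h6.dvd_of_dvd_mul_left h5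
      have a1 := h1 _ (h4.trans hLm)
      have a2 := h2 _ (h4'.trans hRn)
      rw [h3, pow_two]
      exact Nat.mul_le_mul a1 a2
    · intro p hp hpd
      have hp2 : p = 2 := by
        have h3 := Nat.prime_of_mem_primeFactors hp
        have h4 := Nat.dvd_of_mem_primeFactors hp
        exact (Nat.prime_dvd_prime_iff_eq h3 Nat.prime_two).1 h4
      subst hp2
      rw [← hLR] at hpd
      have h5 : (2 ^ (Y + 1)) ^ 2 = 2 ^ (2 * Y + 1 + 1) := by
        rw [← pow_mul]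
        congr 1
        ring
      have h6 : Y + 1 < 2 ^ (Y + 1) := Nat.lt_two_pow_self
      rw [← h5] at hpd
      by_cases h7 : 2 ∣ L
      · have h8 : Nat.Coprime ((2 ^ (Y + 1)) ^ 2) R :=
          Nat.Coprime.pow_left 2 (Nat.Coprime.pow_left (Y + 1)
            (Nat.Coprime.coprime_dvd_left h7 hc))
        have h9 := h1 _ ((h8.dvd_of_dvd_mul_right hpd).trans hLm)
        omega
      · have h8 : Nat.Coprime ((2 ^ (Y + 1)) ^ 2) L :=
          Nat.Coprime.pow_left 2 (Nat.Coprime.pow_left (Y + 1)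
            ((Nat.Prime.coprime_iff_not_dvd Nat.prime_two).2 h7))
        have h9 := h2 _ ((h8.dvd_of_dvd_mul_left hpd).trans hRn)
        omega
  obtain ⟨M0, q, e1, e2, e3, e4, e5, e6⟩ := hgood
  exact ⟨M0, q, e1, e2, e3, e4, e5, Nat.coprime_two_right.1 e6⟩

theorem RR_nonneg (u v : ℤ) (m n : ℕ) : 0 ≤ RR u v m n := by
  unfold RR
  positivity

theorem tot_le {m : ℕ} (hm : Odd m) : (Nat.totient m : ℝ) / (m : ℝ) ^ 2 ≤ 1 / (m : ℝ) := by
  have h0 : (0 : ℝ) < m := by exact_mod_cast hm.pos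
  rw [div_le_div_iff₀ (by positivity) h0, one_mul, pow_two]
  have h1 : (Nat.totient m : ℝ) ≤ m := by exact_mod_cast Nat.totient_le m
  exact mul_le_mul_of_nonneg_right h1 h0.le

theorem RR_le {u v : ℤ} (hA : Adm u v) (h2 : T2) (h3 : T3) {m n : ℕ} (hm : 1 ≤ m) (hn : 1 ≤ n) :
    RR u v m n ≤ 3 / 2 * (1 / (m : ℝ) * (1 / (n : ℝ))) := by
  obtain ⟨i, m', hmo, rfl⟩ := Nat.exists_eq_two_pow_mul_odd (n := m) (by omega)
  obtain ⟨j, n', hno, rfl⟩ := Nat.exists_eq_two_pow_mul_odd (n := n) (by omega)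
  rw [h2 u v hA i j m' n' hmo hno]
  have hm0 : (0 : ℝ) < m' := by exact_mod_cast hmo.pos
  have hn0 : (0 : ℝ) < n' := by exact_mod_cast hno.pos
  have h4 := ((h3 u v hA).1 i j).2
  have h5 : (if Nat.Coprime m' n' then (Nat.totient m' : ℝ) / (m' : ℝ) ^ 2 *
      ((Nat.totient n' : ℝ) / (n' : ℝ) ^ 2) else 0) ≤ 1 / (m' : ℝ) * (1 / (n' : ℝ)) := by
    split_ifs
    · exact mul_le_mul (tot_le hmo) (tot_le hno) (by positivity) (by positivity)
    · positivity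
  have h6 : (0 : ℝ) ≤ (if Nat.Coprime m' n' then (Nat.totient m' : ℝ) / (m' : ℝ) ^ 2 *
      ((Nat.totient n' : ℝ) / (n' : ℝ) ^ 2) else 0) := by
    split_ifs
    · positivity
    · exact le_rfl
  calc RR u v (2 ^ i) (2 ^ j) * (if Nat.Coprime m' n' then (Nat.totient m' : ℝ) / (m' : ℝ) ^ 2 *
      ((Nat.totient n' : ℝ) / (n' : ℝ) ^ 2) else 0)
      ≤ (3 / 2 / 2 ^ (i + j)) * (1 / (m' : ℝ) * (1 / (n' : ℝ))) :=
        mul_le_mul h4 h5 h6 (by positivity)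
    _ = _ := by
        push_cast
        rw [pow_add]
        field_simp

theorem harm_le (N : ℕ) : ∑ k ∈ Icc 1 N, 1 / (k : ℝ) ≤ 1 + Real.log N := by
  have h1 := harmonic_le_one_add_log N
  have h2 : ((harmonic N : ℚ) : ℝ) = ∑ k ∈ Icc 1 N, 1 / (k : ℝ) := by
    rw [harmonic_eq_sum_Icc]
    push_cast
    simp
  rw [← h2]
  exact h1

theorem log_le {X β : ℝ} (hX : 2 ≤ X) (hβ : 0 < β) :
    1 + Real.log (⌊X ^ β⌋₊ : ℝ) ≤ (2 + β) * Real.log X := by
  have hX0 : 0 < X := by linarith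
  have h1 : Real.log (⌊X ^ β⌋₊ : ℝ) ≤ β * Real.log X := by
    rw [← Real.log_rpow hX0]
    have h2 : (1 : ℝ) ≤ X ^ β := Real.one_le_rpow (by linarith) hβ.le
    have h3 : 1 ≤ ⌊X ^ β⌋₊ := (Nat.one_le_floor_iff _).2 h2
    apply Real.log_le_log (by exact_mod_cast h3)
    exact Nat.floor_le (by positivity)
  have h4 : Real.log 2 ≤ Real.log X := Real.log_le_log (by norm_num) hX
  have h5 : (0.69 : ℝ) < Real.log 2 := by
    have := Real.log_two_gt_d9
    linarith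
  nlinarith

theorem In_sub {X α β : ℝ} {m : ℕ} (hm : m ∈ In X α β) : 1 ≤ m ∧ m ≤ ⌊X ^ β⌋₊ := by
  unfold In at hm
  rw [mem_Ioc] at hm
  omega

theorem H_le {X α β : ℝ} (hX : 2 ≤ X) (hβ : 0 < β) :
    ∑ m ∈ In X α β, 1 / (m : ℝ) ≤ (2 + β) * Real.log X := by
  refine le_trans ?_ (log_le hX hβ)
  refine le_trans ?_ (harm_le _)
  apply Finset.sum_le_sum_of_subset_of_nonneg
  · intro m hm
    rw [mem_Icc]
    exact In_sub hm
  · intro m _ _
    positivity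

theorem M_le {X α β : ℝ} (hX : 2 ≤ X) (hβ : 0 < β) {q : ℕ} (hq : 1 ≤ q) :
    ∑ m ∈ (In X α β).filter (fun m => q ∣ m), 1 / (m : ℝ) ≤
      1 / (q : ℝ) * ((2 + β) * Real.log X) := by
  have hq0 : (0 : ℝ) < q := by exact_mod_cast hq
  have h1 : (In X α β).filter (fun m => q ∣ m) ⊆ (Icc 1 ⌊X ^ β⌋₊).image (fun k => q * k) := by
    intro m hm
    rw [mem_filter] at hm
    obtain ⟨hm1, k, rfl⟩ := hm
    have h2 := In_sub hm1
    rw [mem_image]
    refine ⟨k, ?_, rfl⟩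
    rw [mem_Icc]
    refine ⟨?_, ?_⟩
    · rcases Nat.eq_zero_or_pos k with h | h
      · rw [h, mul_zero] at h2
        omega
      · exact h
    · exact (Nat.le_mul_of_pos_left k hq).trans h2.2
  have h3 : ∑ m ∈ (In X α β).filter (fun m => q ∣ m), 1 / (m : ℝ) ≤
      ∑ m ∈ (Icc 1 ⌊X ^ β⌋₊).image (fun k => q * k), 1 / (m : ℝ) := by
    apply Finset.sum_le_sum_of_subset_of_nonneg h1
    intro m _ _
    positivity
  refine h3.trans ?_
  rw [Finset.sum_image (fun a _ b _ h => Nat.eq_of_mul_eq_mul_left hq h)]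
  have h4 : ∑ k ∈ Icc 1 ⌊X ^ β⌋₊, 1 / ((q * k : ℕ) : ℝ) =
      1 / (q : ℝ) * ∑ k ∈ Icc 1 ⌊X ^ β⌋₊, 1 / (k : ℝ) := by
    rw [Finset.mul_sum]
    refine Finset.sum_congr rfl fun k _ => ?_
    push_cast
    rw [one_div_mul_one_div]
  rw [h4]
  exact mul_le_mul_of_nonneg_left ((harm_le _).trans (log_le hX hβ)) (by positivity)

open Classical in
/-- the weight of a number with a large square divisor -/
noncomputable def bd (Y m : ℕ) : ℝ := if ∃ d : ℕ, Y < d ∧ d ^ 2 ∣ m then 1 / (m : ℝ) else 0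

theorem bd_nonneg (Y m : ℕ) : 0 ≤ bd Y m := by
  unfold bd
  split_ifs
  · positivity
  · exact le_rfl

theorem B_le {X α β : ℝ} (hX : 2 ≤ X) (hβ : 0 < β) {Y : ℕ} (hY : 1 ≤ Y) :
    ∑ m ∈ In X α β, bd Y m ≤ 1 / (Y : ℝ) * ((2 + β) * Real.log X) := by
  have hlog : 0 ≤ (2 + β) * Real.log X := by
    have := Real.log_nonneg (x := X) (by linarith)
    positivity
  set N := max Y ⌊X ^ β⌋₊ with hN
  have h1 : ∀ m ∈ In X α β, bd Y m ≤
      ∑ d ∈ Ioc Y N, (if d ^ 2 ∣ m then 1 / (m : ℝ) else 0) := by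
    intro m hm
    have h2 := In_sub hm
    have h0 : ∀ d ∈ Ioc Y N, (0 : ℝ) ≤ (if d ^ 2 ∣ m then 1 / (m : ℝ) else 0) := by
      intro d _
      split_ifs
      · positivity
      · exact le_rfl
    unfold bd
    split_ifs with h3
    · obtain ⟨d, hd, hdm⟩ := h3
      have h4 : d ≤ N := by
        have h5 : d ^ 2 ≤ m := Nat.le_of_dvd (by omega) hdm
        have h6 : d ≤ d ^ 2 := by nlinarith
        have h7 : ⌊X ^ β⌋₊ ≤ N := le_max_right _ _
        omega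
      have h8 := Finset.single_le_sum h0 (mem_Ioc.2 ⟨hd, h4⟩)
      rw [if_pos hdm] at h8
      exact h8
    · exact Finset.sum_nonneg h0
  refine (Finset.sum_le_sum h1).trans ?_
  rw [Finset.sum_comm]
  have h2 : ∀ d ∈ Ioc Y N, ∑ m ∈ In X α β, (if d ^ 2 ∣ m then 1 / (m : ℝ) else 0) ≤
      ((d : ℝ) ^ 2)⁻¹ * ((2 + β) * Real.log X) := by
    intro d hd
    rw [mem_Ioc] at hd
    rw [← Finset.sum_filter]
    have h3 := M_le (α := α) hX hβ (q := d ^ 2) (Nat.pos_of_ne_zero (pow_ne_zero 2 (by omega)))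
    rw [Nat.cast_pow, one_div] at h3
    exact h3
  refine (Finset.sum_le_sum h2).trans ?_
  rw [← Finset.sum_mul]
  refine mul_le_mul_of_nonneg_right ?_ hlog
  have h3 := sum_Ioc_inv_sq_le_sub (α := ℝ) (k := Y) (n := N) (by omega) (le_max_left _ _)
  refine h3.trans ?_
  rw [one_div]
  have h4 : (0 : ℝ) ≤ (N : ℝ)⁻¹ := by positivity
  linarith

end T7aux

open T7aux in
theorem t7 : T2 → T3 → T7 := by
  intro h2 h3 u v hA β₁ β₂ γ₁ γ₂ hβ hβ' hγ hγ' η hη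
  have hβ2 : 0 < β₂ := by linarith
  have hγ2 : 0 < γ₂ := by linarith
  obtain ⟨Y0, hY0⟩ := exists_nat_gt (3 * ((2 + β₂) * (2 + γ₂)) / η)
  set Y := Y0 + 1 with hY
  have hY1 : 1 ≤ Y := by omega
  have hYr : (0 : ℝ) < (Y : ℝ) := by exact_mod_cast hY1
  have hYη : 3 * ((2 + β₂) * (2 + γ₂)) / (Y : ℝ) ≤ η := by
    rw [div_le_iff₀ hYr]
    rw [div_lt_iff₀ hη] at hY0
    have h4 : (Y0 : ℝ) ≤ Y := by exact_mod_cast (by omega : Y0 ≤ Y)
    nlinarith
  refine ⟨2 ^ (2 * Y + 1) * (Y ^ 2) ^ 3, fun X hX => ?_⟩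
  have hlog : 0 ≤ Real.log X := Real.log_nonneg (by linarith)
  have key : ∀ m ∈ In X β₁ β₂, ∀ n ∈ In X γ₁ γ₂,
      (open Classical in if Good2 (2 ^ (2 * Y + 1) * (Y ^ 2) ^ 3) m n then 0 else RR u v m n) ≤
      3 / 2 * (bd Y m * (1 / (n : ℝ)) + 1 / (m : ℝ) * bd Y n) := by
    intro m hm n hn
    have hm1 := (In_sub hm).1
    have hn1 := (In_sub hn).1
    have hb1 := bd_nonneg Y m
    have hb2 := bd_nonneg Y n
    have hn0 : (0 : ℝ) ≤ 1 / (n : ℝ) := by positivity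
    have hm0 : (0 : ℝ) ≤ 1 / (m : ℝ) := by positivity
    split_ifs with hg
    · positivity
    · have h4 := RR_le hA h2 h3 hm1 hn1
      by_cases c1 : ∃ d : ℕ, Y < d ∧ d ^ 2 ∣ m
      · have h5 : bd Y m = 1 / (m : ℝ) := by unfold bd; rw [if_pos c1]
        rw [h5]
        have h6 : 0 ≤ 1 / (m : ℝ) * bd Y n := mul_nonneg hm0 hb2
        linarith
      · by_cases c2 : ∃ d : ℕ, Y < d ∧ d ^ 2 ∣ n
        · have h5 : bd Y n = 1 / (n : ℝ) := by unfold bd; rw [if_pos c2]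
          rw [h5]
          have h6 : 0 ≤ bd Y m * (1 / (n : ℝ)) := mul_nonneg hb1 hn0
          linarith
        · exfalso
          apply hg
          apply good2_of hm1 hn1
          · intro d hd
            by_contra hlt
            exact c1 ⟨d, not_le.1 hlt, hd⟩
          · intro d hd
            by_contra hlt
            exact c2 ⟨d, not_le.1 hlt, hd⟩
  have e1 := Finset.sum_le_sum (fun m hm => Finset.sum_le_sum (key m hm))
  refine e1.trans ?_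
  have e2 : ∑ m ∈ In X β₁ β₂, ∑ n ∈ In X γ₁ γ₂,
      3 / 2 * (bd Y m * (1 / (n : ℝ)) + 1 / (m : ℝ) * bd Y n) =
      3 / 2 * ((∑ m ∈ In X β₁ β₂, bd Y m) * (∑ n ∈ In X γ₁ γ₂, 1 / (n : ℝ)) +
        (∑ m ∈ In X β₁ β₂, 1 / (m : ℝ)) * (∑ n ∈ In X γ₁ γ₂, bd Y n)) := by
    rw [Finset.sum_mul_sum, Finset.sum_mul_sum, ← Finset.sum_add_distrib, Finset.mul_sum]
    refine Finset.sum_congr rfl fun m _ => ?_
    rw [← Finset.sum_add_distrib, Finset.mul_sum]
  rw [e2]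
  have b1 := B_le (α := β₁) hX hβ2 hY1
  have b2 := B_le (α := γ₁) hX hγ2 hY1
  have b3 := H_le (α := β₁) hX hβ2
  have b4 := H_le (α := γ₁) hX hγ2
  have n1 : 0 ≤ ∑ m ∈ In X β₁ β₂, bd Y m := Finset.sum_nonneg fun m _ => bd_nonneg Y m
  have n2 : 0 ≤ ∑ n ∈ In X γ₁ γ₂, bd Y n := Finset.sum_nonneg fun m _ => bd_nonneg Y m
  have n3 : 0 ≤ ∑ m ∈ In X β₁ β₂, 1 / (m : ℝ) := Finset.sum_nonneg fun m _ => by positivity
  have n4 : 0 ≤ ∑ n ∈ In X γ₁ γ₂, 1 / (n : ℝ) := Finset.sum_nonneg fun m _ => by positivity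
  have c1 := mul_le_mul b1 b4 n4 (n1.trans b1)
  have c2 := mul_le_mul b3 b2 n2 (n3.trans b3)
  calc 3 / 2 * ((∑ m ∈ In X β₁ β₂, bd Y m) * (∑ n ∈ In X γ₁ γ₂, 1 / (n : ℝ)) +
        (∑ m ∈ In X β₁ β₂, 1 / (m : ℝ)) * (∑ n ∈ In X γ₁ γ₂, bd Y n)) ≤
      3 / 2 * (1 / (Y : ℝ) * ((2 + β₂) * Real.log X) * ((2 + γ₂) * Real.log X) +
        (2 + β₂) * Real.log X * (1 / (Y : ℝ) * ((2 + γ₂) * Real.log X))) := by linarith
    _ = 3 * ((2 + β₂) * (2 + γ₂)) / (Y : ℝ) * Real.log X ^ 2 := by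
        field_simp
        ring
    _ ≤ η * Real.log X ^ 2 := mul_le_mul_of_nonneg_right hYη (sq_nonneg _)

end Pool.Agent.H592.TR
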